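import Mathlib

/-!
Job CB3-G-LMI (helper472), by helper991: uncovered parts of two arcs.
-/

set_option autoImplicit false

namespace Pool.Agent.Y991.CG

open Real MeasureTheory intervalIntegral Set

/-- positive part of the cosine -/
noncomputable def cp (θ : ℝ) : ℝ := max (cos θ) 0

lemma cp_nonneg (θ : ℝ) : 0 ≤ cp θ := le_max_right _ _

lemma cp_cont : Continuous cp := continuous_cos.max continuous_const

lemma cp_int (a b : ℝ) : IntervalIntegrable cp volume a b := cp_cont.intervalIntegrable a b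

lemma cp_of_nonneg {θ : ℝ} (h : 0 ≤ cos θ) : cp θ = cos θ := max_eq_left h

lemma cp_of_nonpos {θ : ℝ} (h : cos θ ≤ 0) : cp θ = 0 := max_eq_right h

lemma cp_pos {θ : ℝ} (h : 0 < cos θ) : 0 < cp θ := lt_max_of_lt_left h

/-- the uncovered part of the arc with centre `α` and half length `h` -/
noncomputable def uu (α h : ℝ) : ℝ := ∫ θ in (α + h)..(α - h + 2 * π), cp θ

lemma uu_nonneg {α h : ℝ} (hh : h ≤ π) : 0 ≤ uu α h :=
  intervalIntegral.integral_nonneg (by linarith) fun _ _ => cp_nonneg _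

/-- both arcs -/
noncomputable def DD (t x x' : ℝ) : ℝ :=
  uu (t + x / 2) ((π + x') / 2) + uu (t - x / 2) ((π - x') / 2)

lemma KK_cont : Continuous fun y : ℝ => ∫ θ in (0:ℝ)..y, cp θ :=
  intervalIntegral.continuous_primitive cp_int 0

lemma uu_eq (α h : ℝ) : uu α h = (∫ θ in (0:ℝ)..(α - h + 2 * π), cp θ) -
    ∫ θ in (0:ℝ)..(α + h), cp θ := by
  unfold uu
  rw [intervalIntegral.integral_interval_sub_left (cp_int _ _) (cp_int _ _)]

lemma DD_cont : Continuous fun p : ℝ × ℝ × ℝ => DD p.1 p.2.1 p.2.2 := by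
  unfold DD
  simp only [uu_eq]
  have h := KK_cont
  fun_prop

/-- an interval of length more than `π` contains a point with positive cosine -/
lemma long {a b : ℝ} (h : π < b - a) : ∃ c ∈ Icc a b, 0 < cos c := by
  have hpi := pi_pos
  by_contra hcon
  push Not at hcon
  have key : ∀ ε : ℝ, 0 ≤ ε → a + π + ε ≤ b → cos (a + ε) = 0 := by
    intro ε h0 h1
    have e1 := hcon (a + ε) ⟨by linarith, by linarith⟩
    have e2 := hcon (a + π + ε) ⟨by linarith, h1⟩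
    rw [show a + π + ε = (a + ε) + π by ring, cos_add_pi] at e2
    linarith
  have e0 := key 0 le_rfl (by linarith)
  obtain ⟨ε, hε⟩ : ∃ ε : ℝ, ε = min (b - a - π) 1 := ⟨_, rfl⟩
  have hε0 : 0 < ε := by rw [hε]; exact lt_min (by linarith) one_pos
  have hε1 : ε ≤ 1 := by rw [hε]; exact min_le_right _ _
  have hε2 : ε ≤ b - a - π := by rw [hε]; exact min_le_left _ _
  have e1 := key ε hε0.le (by linarith)
  rw [add_zero] at e0
  rw [cos_add, e0, zero_mul, zero_sub, neg_eq_zero] at e1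
  rcases mul_eq_zero.mp e1 with h2 | h2
  · have := sin_sq_add_cos_sq a
    rw [h2, e0] at this
    norm_num at this
  · have : 0 < sin ε := sin_pos_of_pos_of_lt_pi hε0 (by linarith [pi_gt_three])
    linarith

/-- a shifted half circle contains a point with positive cosine -/
lemma shifted {y : ℝ} (h0 : y ≠ 0) (h1 : |y| ≤ 3 * π / 2) :
    ∃ c ∈ Icc (π / 2 + y) (3 * π / 2 + y), 0 < cos c := by
  have hpi := pi_pos
  obtain ⟨h2, h3⟩ := abs_le.mp h1
  rcases lt_or_gt_of_ne h0 with h | h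
  · refine ⟨π / 2 + y / 2, ⟨by linarith, by linarith⟩, ?_⟩
    rw [show π / 2 + y / 2 = y / 2 + π / 2 by ring, cos_add_pi_div_two, ← sin_neg]
    exact sin_pos_of_pos_of_lt_pi (by linarith) (by linarith)
  · refine ⟨3 * π / 2 + y / 2, ⟨by linarith, by linarith⟩, ?_⟩
    rw [show 3 * π / 2 + y / 2 = (y / 2 + π / 2) + π by ring, cos_add_pi, cos_add_pi_div_two,
      neg_neg]
    exact sin_pos_of_pos_of_lt_pi (by linarith) (by linarith)

lemma uu_pos {α h : ℝ} (hh : h < π) (hc : ∃ c ∈ Icc (α + h) (α - h + 2 * π), 0 < cos c) :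
    0 < uu α h := by
  obtain ⟨c, hc1, hc2⟩ := hc
  exact intervalIntegral.integral_pos (by linarith) cp_cont.continuousOn
    (fun _ _ => cp_nonneg _) ⟨c, hc1, cp_pos hc2⟩

lemma DD_pos {t x x' : ℝ} (ht : |t| ≤ π) (hx : |x| ≤ π) (hx' : |x'| ≤ π)
    (hne : ¬ (t = 0 ∧ x = 0 ∧ x' = 0)) : 0 < DD t x x' := by
  have hpi := pi_pos
  obtain ⟨t1, t2⟩ := abs_le.mp ht
  obtain ⟨x1, x2⟩ := abs_le.mp hx
  obtain ⟨y1, y2⟩ := abs_le.mp hx'
  have n1 : 0 ≤ uu (t + x / 2) ((π + x') / 2) := uu_nonneg (by linarith)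
  have n2 : 0 ≤ uu (t - x / 2) ((π - x') / 2) := uu_nonneg (by linarith)
  unfold DD
  rcases lt_trichotomy x' 0 with h | h | h
  · have := uu_pos (α := t + x / 2) (h := (π + x') / 2) (by linarith)
      (long (by linarith))
    linarith
  · subst h
    by_cases hy1 : t + x / 2 = 0
    · have hy2 : t - x / 2 ≠ 0 := by
        intro h2
        apply hne
        refine ⟨by linarith, by linarith, rfl⟩
      have := uu_pos (α := t - x / 2) (h := (π - 0) / 2) (by linarith) (by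
        obtain ⟨c, hc1, hc2⟩ := shifted hy2 (abs_le.mpr ⟨by linarith, by linarith⟩)
        exact ⟨c, ⟨by linarith [hc1.1], by linarith [hc1.2]⟩, hc2⟩)
      linarith
    · have := uu_pos (α := t + x / 2) (h := (π + 0) / 2) (by linarith) (by
        obtain ⟨c, hc1, hc2⟩ := shifted hy1 (abs_le.mpr ⟨by linarith, by linarith⟩)
        exact ⟨c, ⟨by linarith [hc1.1], by linarith [hc1.2]⟩, hc2⟩)
      linarith
  · have := uu_pos (α := t - x / 2) (h := (π - x') / 2) (by linarith)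
      (long (by linarith))
    linarith

/-- one end -/
lemma end1 {o : ℝ} (ho : |o| ≤ π) :
    2 / π ^ 2 * (min o 0) ^ 2 ≤ ∫ θ in (π / 2 + o)..(π / 2), cp θ := by
  have hpi := pi_pos
  obtain ⟨o1, o2⟩ := abs_le.mp ho
  rcases le_or_gt o 0 with h | h
  · rw [min_eq_left h]
    have e1 : ∫ θ in (π / 2 + o)..(π / 2), cp θ = ∫ θ in (π / 2 + o)..(π / 2), cos θ := by
      apply intervalIntegral.integral_congr
      intro θ hθ
      rw [uIcc_of_le (by linarith)] at hθ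
      exact cp_of_nonneg (cos_nonneg_of_neg_pi_div_two_le_of_le (by linarith [hθ.1]) hθ.2)
    rw [e1, integral_cos, sin_pi_div_two, show π / 2 + o = o + π / 2 by ring, sin_add_pi_div_two]
    have := cos_le_one_sub_mul_cos_sq ho
    linarith
  · rw [min_eq_right h.le]
    have e1 : ∫ θ in (π / 2 + o)..(π / 2), cp θ = 0 := by
      rw [intervalIntegral.integral_symm, neg_eq_zero]
      rw [intervalIntegral.integral_congr (g := fun _ => (0:ℝ))]
      · simp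
      · intro θ hθ
        rw [uIcc_of_le (by linarith)] at hθ
        exact cp_of_nonpos (cos_nonpos_of_pi_div_two_le_of_le hθ.1 (by linarith [hθ.2]))
    rw [e1]
    simp

lemma cp_refl (θ : ℝ) : cp (2 * π - θ) = cp θ := by
  unfold cp
  rw [cos_two_pi_sub]

/-- the other end -/
lemma end2 {o : ℝ} (ho : |o| ≤ π) :
    2 / π ^ 2 * (min o 0) ^ 2 ≤ ∫ θ in (3 * π / 2)..(3 * π / 2 - o), cp θ := by
  refine (end1 ho).trans (le_of_eq ?_)
  have h := intervalIntegral.integral_comp_sub_left (a := π / 2 + o) (b := π / 2) cp (2 * π)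
  rw [show 2 * π - π / 2 = 3 * π / 2 by ring, show 2 * π - (π / 2 + o) = 3 * π / 2 - o by ring] at h
  rw [← h]
  simp only [cp_refl]

lemma uu_near {α h : ℝ} (o1 o2 : ℝ) (e1 : α + h = π / 2 + o1) (e2 : α - h = -(π / 2) - o2)
    (h1 : |o1| ≤ π) (h2 : |o2| ≤ π) :
    2 / π ^ 2 * ((min o1 0) ^ 2 + (min o2 0) ^ 2) ≤ uu α h := by
  have hpi := pi_pos
  unfold uu
  rw [e1, show α - h + 2 * π = 3 * π / 2 - o2 by rw [e2]; ring]
  have h3 := intervalIntegral.integral_add_adjacent_intervals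
    (cp_int (π / 2 + o1) (π / 2)) (cp_int (π / 2) (3 * π / 2))
  have h4 := intervalIntegral.integral_add_adjacent_intervals
    (cp_int (π / 2 + o1) (3 * π / 2)) (cp_int (3 * π / 2) (3 * π / 2 - o2))
  have h5 : 0 ≤ ∫ θ in (π / 2)..(3 * π / 2), cp θ :=
    intervalIntegral.integral_nonneg (by linarith) fun _ _ => cp_nonneg _
  have h6 := end1 h1
  have h7 := end2 h2
  rw [mul_add]
  linarith

lemma sq_aux {o1 o2 o3 o4 : ℝ} (h : o1 + o2 + o3 + o4 = 0) (t x x' : ℝ)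
    (e1 : o1 = t + x / 2 + x' / 2) (e2 : o2 = -t - x / 2 + x' / 2)
    (e3 : o3 = t - x / 2 - x' / 2) (_e4 : o4 = -t + x / 2 - x' / 2) :
    (t ^ 2 + x ^ 2 + x' ^ 2) / 36 ≤
      (min o1 0) ^ 2 + (min o2 0) ^ 2 + (min o3 0) ^ 2 + (min o4 0) ^ 2 := by
  obtain ⟨m1, hm1⟩ : ∃ m1, m1 = -min o1 0 := ⟨_, rfl⟩
  obtain ⟨m2, hm2⟩ : ∃ m2, m2 = -min o2 0 := ⟨_, rfl⟩
  obtain ⟨m3, hm3⟩ : ∃ m3, m3 = -min o3 0 := ⟨_, rfl⟩
  obtain ⟨m4, hm4⟩ : ∃ m4, m4 = -min o4 0 := ⟨_, rfl⟩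
  have a1 : -o1 ≤ m1 ∧ 0 ≤ m1 := by
    rw [hm1]; exact ⟨neg_le_neg (min_le_left _ _), by linarith [min_le_right o1 0]⟩
  have a2 : -o2 ≤ m2 ∧ 0 ≤ m2 := by
    rw [hm2]; exact ⟨neg_le_neg (min_le_left _ _), by linarith [min_le_right o2 0]⟩
  have a3 : -o3 ≤ m3 ∧ 0 ≤ m3 := by
    rw [hm3]; exact ⟨neg_le_neg (min_le_left _ _), by linarith [min_le_right o3 0]⟩
  have a4 : -o4 ≤ m4 ∧ 0 ≤ m4 := by
    rw [hm4]; exact ⟨neg_le_neg (min_le_left _ _), by linarith [min_le_right o4 0]⟩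
  have f1 : (min o1 0) ^ 2 = m1 ^ 2 := by rw [hm1]; ring
  have f2 : (min o2 0) ^ 2 = m2 ^ 2 := by rw [hm2]; ring
  have f3 : (min o3 0) ^ 2 = m3 ^ 2 := by rw [hm3]; ring
  have f4 : (min o4 0) ^ 2 = m4 ^ 2 := by rw [hm4]; ring
  rw [f1, f2, f3, f4]
  obtain ⟨N, hN⟩ : ∃ N, N = m1 + m2 + m3 + m4 := ⟨_, rfl⟩
  have b1 : |o1| ≤ N := abs_le.mpr ⟨by linarith, by linarith⟩
  have b2 : |o2| ≤ N := abs_le.mpr ⟨by linarith, by linarith⟩
  have b3 : |o3| ≤ N := abs_le.mpr ⟨by linarith, by linarith⟩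
  have b4 : |o4| ≤ N := abs_le.mpr ⟨by linarith, by linarith⟩
  have c1 : |t| ≤ N := by
    rw [abs_le] at *
    constructor <;> linarith
  have c2 : |x| ≤ 2 * N := by
    rw [abs_le] at *
    constructor <;> linarith
  have c3 : |x'| ≤ 2 * N := by
    rw [abs_le] at *
    constructor <;> linarith
  have d1 : t ^ 2 ≤ N ^ 2 := sq_le_sq' (by linarith [(abs_le.mp c1).1]) (abs_le.mp c1).2
  have d2 : x ^ 2 ≤ (2 * N) ^ 2 := sq_le_sq' (by linarith [(abs_le.mp c2).1]) (abs_le.mp c2).2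
  have d3 : x' ^ 2 ≤ (2 * N) ^ 2 := sq_le_sq' (by linarith [(abs_le.mp c3).1]) (abs_le.mp c3).2
  have d4 : N ^ 2 ≤ 4 * (m1 ^ 2 + m2 ^ 2 + m3 ^ 2 + m4 ^ 2) := by
    rw [hN]
    nlinarith [sq_nonneg (m1 - m2), sq_nonneg (m1 - m3), sq_nonneg (m1 - m4), sq_nonneg (m2 - m3),
      sq_nonneg (m2 - m4), sq_nonneg (m3 - m4)]
  nlinarith

/-- near zero -/
lemma DD_near {t x x' : ℝ} (ht : |t| ≤ 1) (hx : |x| ≤ 1) (hx' : |x'| ≤ 1) :
    1 / (18 * π ^ 2) * (t ^ 2 + x ^ 2 + x' ^ 2) ≤ DD t x x' := by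
  have hpi := pi_gt_three
  obtain ⟨t1, t2⟩ := abs_le.mp ht
  obtain ⟨x1, x2⟩ := abs_le.mp hx
  obtain ⟨y1, y2⟩ := abs_le.mp hx'
  have u1 := uu_near (α := t + x / 2) (h := (π + x') / 2) (t + x / 2 + x' / 2)
    (-t - x / 2 + x' / 2) (by ring) (by ring) (abs_le.mpr ⟨by linarith, by linarith⟩)
    (abs_le.mpr ⟨by linarith, by linarith⟩)
  have u2 := uu_near (α := t - x / 2) (h := (π - x') / 2) (t - x / 2 - x' / 2)
    (-t + x / 2 - x' / 2) (by ring) (by ring) (abs_le.mpr ⟨by linarith, by linarith⟩)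
    (abs_le.mpr ⟨by linarith, by linarith⟩)
  have h3 := sq_aux (o1 := t + x / 2 + x' / 2) (o2 := -t - x / 2 + x' / 2)
    (o3 := t - x / 2 - x' / 2) (o4 := -t + x / 2 - x' / 2) (by ring) t x x' rfl rfl rfl rfl
  unfold DD
  have h4 : 1 / (18 * π ^ 2) * (t ^ 2 + x ^ 2 + x' ^ 2) =
      2 / π ^ 2 * ((t ^ 2 + x ^ 2 + x' ^ 2) / 36) := by
    field_simp
    ring
  have h5 : 0 ≤ 2 / π ^ 2 := by positivity
  have h6 := mul_le_mul_of_nonneg_left h3 h5
  rw [h4]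
  linarith

/-- lower bound of the uncovered parts -/
theorem DD_low : ∃ κ : ℝ, 0 < κ ∧ ∀ t x x' : ℝ, |t| ≤ π → |x| ≤ π → |x'| ≤ π →
    κ * (min |x| 1 ^ 2 + min |x'| 1 ^ 2 + min |t| 1 ^ 2) ≤ DD t x x' := by
  have hpi := pi_gt_three
  obtain ⟨S, hS⟩ : ∃ S : Set (ℝ × ℝ × ℝ), S = (Icc (-π) π ×ˢ Icc (-π) π ×ˢ Icc (-π) π) ∩
    {p | 1 ≤ |p.1| ∨ 1 ≤ |p.2.1| ∨ 1 ≤ |p.2.2|} := ⟨_, rfl⟩
  have hSc : IsCompact S := by
    rw [hS]
    apply IsCompact.inter_right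
    · exact isCompact_Icc.prod (isCompact_Icc.prod isCompact_Icc)
    · have c1 : IsClosed {p : ℝ × ℝ × ℝ | 1 ≤ |p.1|} :=
        isClosed_le continuous_const (continuous_abs.comp continuous_fst)
      have c2 : IsClosed {p : ℝ × ℝ × ℝ | 1 ≤ |p.2.1|} :=
        isClosed_le continuous_const (continuous_abs.comp (continuous_fst.comp continuous_snd))
      have c3 : IsClosed {p : ℝ × ℝ × ℝ | 1 ≤ |p.2.2|} :=
        isClosed_le continuous_const (continuous_abs.comp (continuous_snd.comp continuous_snd))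
      exact c1.union (c2.union c3)
  have hSn : S.Nonempty := by
    refine ⟨(1, 0, 0), ?_⟩
    rw [hS]
    refine ⟨⟨⟨by linarith, by linarith⟩, ⟨by simp; linarith, by simp; linarith⟩,
      ⟨by simp; linarith, by simp; linarith⟩⟩, ?_⟩
    left
    simp
  obtain ⟨p₀, hp₀, hmin⟩ := hSc.exists_isMinOn hSn DD_cont.continuousOn
  obtain ⟨δ, hδ⟩ : ∃ δ : ℝ, δ = DD p₀.1 p₀.2.1 p₀.2.2 := ⟨_, rfl⟩
  have hδ0 : 0 < δ := by
    rw [hδ]
    rw [hS] at hp₀
    obtain ⟨⟨h1, h2, h3⟩, h4⟩ := hp₀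
    refine DD_pos (abs_le.mpr h1) (abs_le.mpr h2) (abs_le.mpr h3) ?_
    rintro ⟨g1, g2, g3⟩
    rcases h4 with h | h | h
    · rw [g1, abs_zero] at h; linarith
    · rw [g2, abs_zero] at h; linarith
    · rw [g3, abs_zero] at h; linarith
  have hb : ∀ y : ℝ, 0 ≤ min |y| 1 ^ 2 ∧ min |y| 1 ^ 2 ≤ 1 ∧ min |y| 1 ^ 2 ≤ y ^ 2 := by
    intro y
    have h0 : 0 ≤ min |y| 1 := le_min (abs_nonneg _) zero_le_one
    refine ⟨sq_nonneg _, ?_, ?_⟩
    · have : min |y| 1 ≤ 1 := min_le_right _ _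
      nlinarith
    · have : min |y| 1 ≤ |y| := min_le_left _ _
      rw [← sq_abs y]
      exact pow_le_pow_left₀ h0 this 2
  refine ⟨min (δ / 3) (1 / (18 * π ^ 2)), lt_min (by positivity) (by positivity), ?_⟩
  intro t x x' ht hx hx'
  obtain ⟨bt0, bt1, bt2⟩ := hb t
  obtain ⟨bx0, bx1, bx2⟩ := hb x
  obtain ⟨by0, by1, by2⟩ := hb x'
  by_cases hin : 1 ≤ |t| ∨ 1 ≤ |x| ∨ 1 ≤ |x'|
  · have hmem : (t, x, x') ∈ S := by
      rw [hS]
      exact ⟨⟨abs_le.mp ht, abs_le.mp hx, abs_le.mp hx'⟩, hin⟩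
    have h1 : δ ≤ DD t x x' := by
      rw [hδ]
      exact hmin hmem
    have h2 : min (δ / 3) (1 / (18 * π ^ 2)) ≤ δ / 3 := min_le_left _ _
    calc _ ≤ δ / 3 * (min |x| 1 ^ 2 + min |x'| 1 ^ 2 + min |t| 1 ^ 2) := by gcongr
      _ ≤ δ / 3 * 3 := by gcongr; linarith
      _ = δ := by ring
      _ ≤ _ := h1
  · push Not at hin
    have h1 := DD_near hin.1.le hin.2.1.le hin.2.2.le
    have h2 : min (δ / 3) (1 / (18 * π ^ 2)) ≤ 1 / (18 * π ^ 2) := min_le_right _ _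
    have h3 : 0 ≤ 1 / (18 * π ^ 2) := by positivity
    calc _ ≤ 1 / (18 * π ^ 2) * (min |x| 1 ^ 2 + min |x'| 1 ^ 2 + min |t| 1 ^ 2) := by gcongr
      _ ≤ 1 / (18 * π ^ 2) * (t ^ 2 + x ^ 2 + x' ^ 2) :=
        mul_le_mul_of_nonneg_left (by linarith) h3
      _ ≤ _ := h1

end Pool.Agent.Y991.CG
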