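import Pool.Agent.Y472.G.Defs
import Pool.Agent.Y991.CG.LMIarcs

/-!
Job CB3-G-LMI (helper472), by helper991: the integral inequality for two arcs.
-/

set_option autoImplicit false

namespace Pool.Agent.Y991.CG

open Real MeasureTheory intervalIntegral Set

lemma cp_per : Function.Periodic cp (2 * π) := by
  intro θ
  unfold cp
  rw [cos_add_two_pi]

/-- the integral over an arc -/
theorem arc {G : ℝ → ℝ} (hG : ∀ a b, IntervalIntegrable G volume a b)
    (hper : Function.Periodic G (2 * π)) {c : ℝ} (hc : 0 ≤ c)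
    (hpos : ∀ θ, 0 ≤ cos θ → c * cos θ ≤ G θ) (hneg : ∀ θ, cos θ ≤ 0 → G θ ≤ 0) {α h : ℝ}
    (h0 : 0 ≤ h) (h1 : h ≤ π) :
    ∫ θ in (α - h)..(α + h), G θ ≤ (∫ θ in (-(π / 2))..(π / 2), G θ) - c * uu α h := by
  have hpi := pi_pos
  obtain ⟨Gp, hGp⟩ : ∃ Gp : ℝ → ℝ, Gp = fun θ => max (G θ) 0 := ⟨_, rfl⟩
  have hGpi : ∀ a b, IntervalIntegrable Gp volume a b := by
    intro a b
    rw [hGp]
    exact ⟨(hG a b).1.pos_part, (hG a b).2.pos_part⟩
  have hGpper : Function.Periodic Gp (2 * π) := by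
    intro θ
    rw [hGp]
    simp only [hper θ]
  have hGp0 : ∀ θ, 0 ≤ Gp θ := fun θ => by rw [hGp]; exact le_max_right _ _
  have hGpG : ∀ θ, G θ ≤ Gp θ := fun θ => by rw [hGp]; exact le_max_left _ _
  have e1 : ∫ θ in (α - h)..(α + h), G θ ≤ ∫ θ in (α - h)..(α + h), Gp θ :=
    intervalIntegral.integral_mono_on (by linarith) (hG _ _) (hGpi _ _) fun θ _ => hGpG θ
  have e2 := intervalIntegral.integral_add_adjacent_intervals
    (hGpi (α - h) (α + h)) (hGpi (α + h) (α - h + 2 * π))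
  have e3 : ∫ θ in (α - h)..(α - h + 2 * π), Gp θ = ∫ θ in (-π)..(-π + 2 * π), Gp θ :=
    hGpper.intervalIntegral_add_eq _ _
  have e4 := intervalIntegral.integral_add_adjacent_intervals
    (hGpi (-π) (-(π / 2))) (hGpi (-(π / 2)) (π / 2))
  have e5 := intervalIntegral.integral_add_adjacent_intervals
    (hGpi (-π) (π / 2)) (hGpi (π / 2) (-π + 2 * π))
  have z1 : ∫ θ in (-π)..(-(π / 2)), Gp θ = 0 := by
    rw [intervalIntegral.integral_congr (g := fun _ => (0:ℝ))]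
    · simp
    · intro θ hθ
      rw [uIcc_of_le (by linarith)] at hθ
      have hcos : cos θ ≤ 0 := by
        rw [← cos_neg]
        exact cos_nonpos_of_pi_div_two_le_of_le (by linarith [hθ.2]) (by linarith [hθ.1])
      rw [hGp]
      exact max_eq_right (hneg θ hcos)
  have z2 : ∫ θ in (π / 2)..(-π + 2 * π), Gp θ = 0 := by
    rw [intervalIntegral.integral_congr (g := fun _ => (0:ℝ))]
    · simp
    · intro θ hθ
      rw [uIcc_of_le (by linarith)] at hθ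
      have hcos : cos θ ≤ 0 :=
        cos_nonpos_of_pi_div_two_le_of_le hθ.1 (by linarith [hθ.2])
      rw [hGp]
      exact max_eq_right (hneg θ hcos)
  have z3 : ∫ θ in (-(π / 2))..(π / 2), Gp θ = ∫ θ in (-(π / 2))..(π / 2), G θ := by
    apply intervalIntegral.integral_congr
    intro θ hθ
    rw [uIcc_of_le (by linarith)] at hθ
    have hcos : 0 ≤ cos θ := cos_nonneg_of_neg_pi_div_two_le_of_le hθ.1 hθ.2
    rw [hGp]
    exact max_eq_left (le_trans (mul_nonneg hc hcos) (hpos θ hcos))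
  have e6 : c * uu α h ≤ ∫ θ in (α + h)..(α - h + 2 * π), Gp θ := by
    unfold uu
    rw [← intervalIntegral.integral_const_mul]
    apply intervalIntegral.integral_mono_on (by linarith) ((cp_int _ _).const_mul c) (hGpi _ _)
    intro θ _
    rcases le_total 0 (cos θ) with hcos | hcos
    · rw [cp_of_nonneg hcos]
      exact (hpos θ hcos).trans (hGpG θ)
    · rw [cp_of_nonpos hcos, mul_zero]
      exact hGp0 θ
  linarith

open Pool.Agent.Y472

/-- real part of `cos (χ / 2)` -/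
noncomputable def cu (χ : ℂ) : ℝ := cos (χ.re / 2) * cosh (χ.im / 2)

/-- imaginary part of `-cos (χ / 2)` -/
noncomputable def cv (χ : ℂ) : ℝ := sin (χ.re / 2) * sinh (χ.im / 2)

lemma w_eq (χ : ℂ) : Complex.cos (χ / 2) = ((cu χ : ℝ) : ℂ) - ((cv χ : ℝ) : ℂ) * Complex.I := by
  have h := Complex.cos_eq (χ / 2)
  have e1 : (χ / 2).re = χ.re / 2 := by simp
  have e2 : (χ / 2).im = χ.im / 2 := by simp
  rw [h, e1, e2]
  unfold cu cv
  push_cast
  ring

lemma arg_eq (χ : ℂ) (θ : ℝ) :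
    2 * Complex.cos (χ / 2) + 2 * Complex.cos (θ : ℂ) =
      ((2 * cu χ + 2 * cos θ : ℝ) : ℂ) + ((-(2 * cv χ) : ℝ) : ℂ) * Complex.I := by
  rw [w_eq, ← Complex.ofReal_cos]
  push_cast
  ring

lemma arg_re (χ : ℂ) (θ : ℝ) :
    (2 * Complex.cos (χ / 2) + 2 * Complex.cos (θ : ℂ)).re = 2 * cu χ + 2 * cos θ := by
  rw [arg_eq, Complex.add_re, Complex.mul_re, Complex.ofReal_re, Complex.ofReal_re,
    Complex.ofReal_im, Complex.I_re, Complex.I_im]
  ring

lemma arg_im (χ : ℂ) (θ : ℝ) :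
    (2 * Complex.cos (χ / 2) + 2 * Complex.cos (θ : ℂ)).im = -(2 * cv χ) := by
  rw [arg_eq, Complex.add_im, Complex.mul_im, Complex.ofReal_re, Complex.ofReal_im,
    Complex.ofReal_im, Complex.I_re, Complex.I_im]
  ring

lemma Lm_eq (χ : ℂ) (θ : ℝ) :
    Lm χ θ = 1 / 2 * log (4 * ((cu χ + cos θ) ^ 2 + cv χ ^ 2)) := by
  unfold Lm
  have h : ‖2 * Complex.cos (χ / 2) + 2 * Complex.cos (θ : ℂ)‖ ^ 2 =
      4 * ((cu χ + cos θ) ^ 2 + cv χ ^ 2) := by
    rw [Complex.sq_norm, Complex.normSq_apply, arg_re, arg_im]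
    ring
  rw [← h, log_pow]
  push_cast
  ring

lemma Lm_per (χ : ℂ) : Function.Periodic (Lm χ) (2 * π) := by
  intro θ
  rw [Lm_eq, Lm_eq, cos_add_two_pi]

lemma Lm_int (χ : ℂ) (a b : ℝ) : IntervalIntegrable (Lm χ) volume a b := by
  have h : MeromorphicOn (fun θ : ℝ => 2 * Complex.cos (χ / 2) + 2 * Complex.cos (θ : ℂ))
      (uIcc a b) := by
    intro θ _
    apply AnalyticAt.meromorphicAt
    have h1 : AnalyticAt ℝ (fun θ : ℝ => Complex.cos (θ : ℂ)) θ := by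
      have h2 : (fun θ : ℝ => Complex.cos (θ : ℂ)) = fun θ : ℝ => ((cos θ : ℝ) : ℂ) := by
        funext θ
        rw [Complex.ofReal_cos]
      rw [h2]
      exact (Complex.ofRealCLM.analyticAt _).comp analyticAt_cos
    exact analyticAt_const.add (analyticAt_const.mul h1)
  exact h.intervalIntegrable_log_norm

section

variable {χ : ℂ} (h1 : |χ.re| ≤ 2 * π / 3) (h2 : |χ.im| ≤ 9 / 5)

include h1 in
lemma cu_low : 1 / 2 ≤ cu χ := by
  unfold cu
  have hpi := pi_pos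
  have e1 : 1 / 2 ≤ cos (χ.re / 2) := by
    rw [← cos_pi_div_three, ← cos_abs (χ.re / 2)]
    apply cos_le_cos_of_nonneg_of_le_pi (abs_nonneg _) (by linarith)
    rw [abs_div, abs_two]
    linarith
  have e2 : 1 ≤ cosh (χ.im / 2) := one_le_cosh _
  nlinarith

include h2 in
lemma cw_up : cu χ ^ 2 + cv χ ^ 2 ≤ 4 := by
  unfold cu cv
  have e1 : cosh (χ.im / 2) ≤ cosh 1 := by
    rw [cosh_le_cosh, abs_div, abs_two, abs_one]
    linarith
  have e2 : cosh 1 ≤ 1.86 := by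
    rw [cosh_eq]
    have := exp_one_lt_d9
    have h3 : exp (-1) ≤ 1 := exp_le_one_iff.mpr (by norm_num)
    linarith
  have e3 : 0 < cosh (χ.im / 2) := cosh_pos _
  have e4 : cosh (χ.im / 2) ^ 2 ≤ 4 := by nlinarith
  have e5 : sinh (χ.im / 2) ^ 2 ≤ cosh (χ.im / 2) ^ 2 := by
    have := cosh_sq (χ.im / 2)
    linarith
  have e6 := sin_sq_add_cos_sq (χ.re / 2)
  calc (cos (χ.re / 2) * cosh (χ.im / 2)) ^ 2 + (sin (χ.re / 2) * sinh (χ.im / 2)) ^ 2
      = cos (χ.re / 2) ^ 2 * cosh (χ.im / 2) ^ 2 + sin (χ.re / 2) ^ 2 * sinh (χ.im / 2) ^ 2 := by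
        ring
    _ ≤ cos (χ.re / 2) ^ 2 * cosh (χ.im / 2) ^ 2 + sin (χ.re / 2) ^ 2 * cosh (χ.im / 2) ^ 2 := by
        gcongr
    _ = cosh (χ.im / 2) ^ 2 := by
        rw [← add_mul, add_comm, e6, one_mul]
    _ ≤ 4 := e4

include h1 h2 in
lemma Lm_pos {θ : ℝ} (hθ : 0 ≤ cos θ) : 1 / 10 * cos θ ≤ Lm χ θ - Lm χ (π / 2) := by
  rw [Lm_eq, Lm_eq, cos_pi_div_two, add_zero]
  have hu := cu_low h1
  have hw := cw_up h2
  have hc1 : cos θ ≤ 1 := cos_le_one θ
  generalize cu χ = u at hu hw ⊢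
  generalize cv χ = v at hw ⊢
  generalize cos θ = c at hθ hc1 ⊢
  have hW : 0 < u ^ 2 + v ^ 2 := by nlinarith [sq_nonneg v]
  have hx : 0 < 1 + c / 4 := by linarith
  have e1 : 4 * (u ^ 2 + v ^ 2) * (1 + c / 4) ≤ 4 * ((u + c) ^ 2 + v ^ 2) := by
    nlinarith [mul_nonneg hθ (show 0 ≤ 2 * u + c - 1 by linarith),
      mul_nonneg hθ (show 0 ≤ 4 - (u ^ 2 + v ^ 2) by linarith)]
  have e2 : log (4 * (u ^ 2 + v ^ 2)) + log (1 + c / 4) ≤ log (4 * ((u + c) ^ 2 + v ^ 2)) := by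
    rw [← log_mul (by positivity) hx.ne']
    exact log_le_log (by positivity) e1
  have e3 : c / 5 ≤ log (1 + c / 4) := by
    have e4 := one_sub_inv_le_log_of_pos hx
    have e5 : c / 5 ≤ 1 - (1 + c / 4)⁻¹ := by
      have e6 : 1 - (1 + c / 4)⁻¹ = (c / 4) / (1 + c / 4) := by
        rw [eq_div_iff hx.ne', sub_mul, inv_mul_cancel₀ hx.ne']
        ring
      rw [e6, le_div_iff₀ hx]
      nlinarith
    linarith
  linarith

include h1 in
lemma Lm_neg {θ : ℝ} (hθ : cos θ ≤ 0) : Lm χ θ - Lm χ (π / 2) ≤ 0 := by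
  rw [Lm_eq, Lm_eq, cos_pi_div_two, add_zero]
  have hu := cu_low h1
  have hc1 : -1 ≤ cos θ := neg_one_le_cos θ
  generalize cu χ = u at hu ⊢
  generalize cv χ = v at ⊢
  generalize cos θ = c at hθ hc1 ⊢
  have e1 : (u + c) ^ 2 + v ^ 2 ≤ u ^ 2 + v ^ 2 := by
    nlinarith [mul_nonneg (neg_nonneg.mpr hθ) (show 0 ≤ 2 * u + c by linarith)]
  have e2 : 1 ≤ 4 * (u ^ 2 + v ^ 2) := by nlinarith [sq_nonneg v]
  have e3 : log (4 * ((u + c) ^ 2 + v ^ 2)) ≤ log (4 * (u ^ 2 + v ^ 2)) := by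
    rcases eq_or_lt_of_le (show 0 ≤ (u + c) ^ 2 + v ^ 2 by positivity) with h | h
    · rw [← h, mul_zero, log_zero]
      exact log_nonneg e2
    · exact log_le_log (by positivity) (by linarith)
  linarith

include h1 in
lemma s0_re : (s0 χ).re = 1 / π * ∫ θ in (-(π / 2))..(π / 2), Lm χ θ := by
  have hpi := pi_pos
  unfold s0
  have hint : IntervalIntegrable (fun θ : ℝ => Complex.log (2 * Complex.cos (χ / 2) +
      2 * Complex.cos (θ : ℂ))) volume (-(π / 2)) (π / 2) := by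
    apply ContinuousOn.intervalIntegrable
    apply ContinuousOn.clog
    · apply Continuous.continuousOn
      fun_prop
    · intro θ hθ
      rw [uIcc_of_le (by linarith)] at hθ
      rw [Complex.mem_slitPlane_iff]
      left
      rw [arg_re]
      have := cos_nonneg_of_neg_pi_div_two_le_of_le hθ.1 hθ.2
      have := cu_low h1
      linarith
  have h3 := Complex.reCLM.intervalIntegral_comp_comm hint
  have e1 : (1 / (π : ℂ)) = (((1 / π : ℝ)) : ℂ) := by push_cast; rfl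
  rw [e1, Complex.re_ofReal_mul]
  congr 1
  rw [← Complex.reCLM_apply, ← h3]
  apply intervalIntegral.integral_congr
  intro θ _
  simp only [Complex.reCLM_apply]
  rw [Complex.log_re]
  rfl

end

/-- job CB3-G-LMI -/
theorem lmi : S_LMI := by
  obtain ⟨κ, hκ, hD⟩ := DD_low
  have hpi := pi_pos
  refine ⟨1, κ / (20 * π), one_pos, le_rfl, by positivity, ?_⟩
  intro χ t x x' h1 h2 ht hx hx'
  obtain ⟨t1, t2⟩ := abs_le.mp ht
  obtain ⟨x1, x2⟩ := abs_le.mp hx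
  obtain ⟨y1, y2⟩ := abs_le.mp hx'
  obtain ⟨L0, hL0⟩ : ∃ L0 : ℝ, L0 = Lm χ (π / 2) := ⟨_, rfl⟩
  obtain ⟨G, hG⟩ : ∃ G : ℝ → ℝ, G = fun θ => Lm χ θ - L0 := ⟨_, rfl⟩
  have hGi : ∀ a b, IntervalIntegrable G volume a b := by
    intro a b
    rw [hG]
    exact (Lm_int χ a b).sub intervalIntegrable_const
  have hGper : Function.Periodic G (2 * π) := by
    intro θ
    rw [hG]
    simp only [Lm_per χ θ]
  have hLG : ∀ a b : ℝ, ∫ θ in a..b, Lm χ θ = (∫ θ in a..b, G θ) + (b - a) * L0 := by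
    intro a b
    rw [hG, intervalIntegral.integral_sub (Lm_int χ a b) intervalIntegrable_const]
    simp
  have hpos : ∀ θ, 0 ≤ cos θ → 1 / 10 * cos θ ≤ G θ := by
    intro θ hθ
    rw [hG, hL0]
    exact Lm_pos h1 h2 hθ
  have hneg : ∀ θ, cos θ ≤ 0 → G θ ≤ 0 := by
    intro θ hθ
    rw [hG, hL0]
    exact Lm_neg h1 hθ
  have a1 := arc hGi hGper (c := 1 / 10) (by norm_num) hpos hneg (α := t + x / 2)
    (h := (π + x') / 2) (by linarith) (by linarith)
  have a2 := arc hGi hGper (c := 1 / 10) (by norm_num) hpos hneg (α := t - x / 2)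
    (h := (π - x') / 2) (by linarith) (by linarith)
  have hDD := hD t x x' ht hx hx'
  rw [s0_re h1, hLG, hLG, hLG]
  unfold DD at hDD
  obtain ⟨P, hP⟩ : ∃ P : ℝ, P = ∫ θ in (-(π / 2))..(π / 2), G θ := ⟨_, rfl⟩
  obtain ⟨A, hA⟩ : ∃ A : ℝ, A = ∫ θ in (t + x / 2 - (π + x') / 2)..(t + x / 2 + (π + x') / 2), G θ :=
    ⟨_, rfl⟩
  obtain ⟨B, hB⟩ : ∃ B : ℝ, B = ∫ θ in (t - x / 2 - (π - x') / 2)..(t - x / 2 + (π - x') / 2), G θ :=
    ⟨_, rfl⟩
  rw [← hP, ← hA] at a1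
  rw [← hP, ← hB] at a2
  rw [← hP, ← hA, ← hB]
  obtain ⟨M, hM⟩ : ∃ M : ℝ, M = min |x| 1 ^ 2 + min |x'| 1 ^ 2 + min |t| 1 ^ 2 := ⟨_, rfl⟩
  have e1 : 1 / (2 * π) * (A + (t + x / 2 + (π + x') / 2 - (t + x / 2 - (π + x') / 2)) * L0 +
      (B + (t - x / 2 + (π - x') / 2 - (t - x / 2 - (π - x') / 2)) * L0)) =
      1 / (2 * π) * (A + B) + L0 := by
    field_simp
    ring
  have e2 : 1 / π * (P + (π / 2 - -(π / 2)) * L0) - κ / (20 * π) * min |x| 1 ^ 2 -
      κ / (20 * π) * min |x'| 1 ^ 2 - κ / (20 * π) * min |t| 1 ^ 2 =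
      1 / (2 * π) * (2 * P - 1 / 10 * (κ * M)) + L0 := by
    rw [hM]
    field_simp
    ring
  rw [e1, e2]
  rw [← hM] at hDD
  have e3 : A + B ≤ 2 * P - 1 / 10 * (κ * M) := by linarith
  have e4 : 0 ≤ 1 / (2 * π) := by positivity
  have := mul_le_mul_of_nonneg_left e3 e4
  linarith

end Pool.Agent.Y991.CG
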